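import Mathlib
import Pool.Agent.MP_110442_nt.Even

set_option autoImplicit false

namespace Pool.Agent.Results.MP_110442_nt.Quartic

open Pool.Agent.MP_110442_nt

lemma odd_nat {q r p s k l : ℕ} (hp : 0 < p) (hq : 0 < q) (hr : 0 < r) (hs : 0 < s)
    (hps : Nat.Coprime p s) (hqr : Nat.Coprime q r) (hPQ : Nat.Coprime (p * s) (q * r))
    (hk : q ^ 2 + r ^ 2 = k * (p * s)) (hl : p ^ 2 + s ^ 2 = l * (q * r)) (h8 : k * l % 8 = 5)
    (h2 : q % 2 = 0) :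
    ∃ x v z w : ℤ, (∀ π : ℕ, π.Prime → π ≠ 2 →
        Odd (padicValNat π (k * l - 4)) ∨ Odd (padicValNat π (k * l + 4)) →
        IsSquare ((2 * k : ℕ) : ZMod π)) ∧
      ((k * l : ℕ) : ℤ) - 4 = x ^ 2 + 16 * v ^ 2 ∧ ((k * l : ℕ) : ℤ) + 4 = z ^ 2 + 16 * w ^ 2 ∧
      (∀ p : ℕ, p.Prime → p ∣ k * l → ∀ j : ZMod p, j ^ 2 = -1 →
        IsSquare (2 * ((x + 4 * j * v) * (z + 4 * j * w)))) ∧
      (nonQuartic (2 * k) (k * l - 4) : ℤ) % 2 = (w + (((k * l : ℕ) : ℤ) - 5) / 8) % 2 ∧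
      (nonQuartic (2 * k) (k * l + 4) : ℤ) % 2 = (v + (((k * l : ℕ) : ℤ) - 5) / 8) % 2 := by
  obtain ⟨a, rfl⟩ : ∃ a, q = 2 * a := ⟨q / 2, by omega⟩
  have c := (hPQ.coprime_mul_right_right).coprime_mul_right_right
  have o1 := Nat.odd_iff.1 (Nat.coprime_two_right.1 c.coprime_mul_right)
  have o2 := Nat.odd_iff.1 (Nat.coprime_two_right.1 c.coprime_mul_left)
  obtain ⟨y', y, e1, e2⟩ : ∃ y' y : ℤ, y' + y = p ∧ y' - y = s :=
    ⟨((p : ℤ) + s) / 2, ((p : ℤ) - s) / 2, by omega, by omega⟩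
  have hk' : (2 * a : ℤ) ^ 2 + r ^ 2 = k * (p * s) := by exact_mod_cast hk
  have hl' : (p : ℤ) ^ 2 + s ^ 2 = l * (2 * a * r) := by exact_mod_cast hl
  refine odd_main (a := a) (δ := r) (y' := y') (y := y) (by omega) (by omega) (by omega)
    (by omega) ?_ ?_ ?_ (by rw [e1, e2]; linear_combination hk') ?_ h8
  · rw [e1, e2]; exact_mod_cast Nat.isCoprime_iff_coprime.2 hPQ.symm
  · exact_mod_cast Nat.isCoprime_iff_coprime.2 hqr
  · rw [e1, e2]; exact Nat.isCoprime_iff_coprime.2 hps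
  · rw [← e1, ← e2] at hl'
    exact mul_left_cancel₀ (two_ne_zero' ℤ) (by linear_combination hl')

theorem core (n : ℕ) (a b c d : ℚ) (ha : 0 < a) (_hb : 0 < b) (hc : 0 < c) (hd : 0 < d)
    (h1 : (n : ℚ) = (a + b) * (c + d)) (h2 : a * b * c * d = 1) :
    (∀ p : ℕ, p.Prime → p ∣ n → p % 4 ≠ 3) ∧
      ∃ (L : ℕ) (x y z w : ℤ),
        (∀ π : ℕ, π.Prime → π ≠ 2 → Odd (padicValNat π (n - 4)) ∨ Odd (padicValNat π (n + 4)) →
          IsSquare (L : ZMod π)) ∧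
        ((n % 8 = 5 ∧ L % 2 = 0 ∧ L ∣ 2 * n ∧ (n : ℤ) - 4 = x ^ 2 + 16 * y ^ 2 ∧
            (n : ℤ) + 4 = z ^ 2 + 16 * w ^ 2 ∧
            (∀ p : ℕ, p.Prime → p ∣ n → ∀ j : ZMod p, j ^ 2 = -1 →
              IsSquare (2 * ((x + 4 * j * y) * (z + 4 * j * w)))) ∧
            (nonQuartic L (n - 4) : ℤ) % 2 = (w + ((n : ℤ) - 5) / 8) % 2 ∧
            (nonQuartic L (n + 4) : ℤ) % 2 = (y + ((n : ℤ) - 5) / 8) % 2) ∨
          (n % 64 = 4 ∧ L % 8 = 1 ∧ 4 * L ∣ n ∧ (n : ℤ) - 4 = x ^ 2 + y ^ 2 ∧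
            (n : ℤ) + 4 = 8 * (z ^ 2 + 16 * w ^ 2) ∧
            (∀ p : ℕ, p.Prime → p ≠ 2 → p ∣ n → ∀ j : ZMod p, j ^ 2 = -1 →
              IsSquare ((1 + j) * ((x + j * y) * (z + 4 * j * w)))) ∧
            ((nonQuartic L (n - 4) : ℤ) + padicValNat 2 (n - 4) * (((L : ℤ) - 1) / 8)) % 2
              = w % 2 ∧
            ((nonQuartic L (n + 4) : ℤ) + ((L : ℤ) - 1) / 8) % 2 = w % 2)) := by
  obtain ⟨p, q, r, s, k, l, hp, hq, hr, hs, hps, hqr, hPQ, hk, hl, rfl⟩ :=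
    param n a b c d ha hc hd h1 h2
  refine ⟨fun π hπ h h3 => ?_, ?_⟩
  · rcases (Nat.Prime.dvd_mul hπ).1 h with h | h
    · have := mod_four (h.trans (Dvd.intro _ hk.symm)) hqr (by omega); omega
    · have := mod_four (h.trans (Dvd.intro _ hl.symm)) hps (by omega); omega
  have par : ∀ {u v : ℕ}, u * v % 2 = 0 → u % 2 = 0 ∨ v % 2 = 0 := fun h => by
    simpa only [Nat.even_iff] using Nat.even_mul.1 (Nat.even_iff.2 h)
  by_cases hev : k * l % 2 = 0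
  · have h3 : k * l % 64 = 4 ∧ k % 16 = 2 ∧ l % 16 = 2 := by
      rcases par hev with h | h
      · have := even_case hps hqr hPQ.symm hl hk h
        rw [mul_comm] at this
        tauto
      · exact even_case hqr hps hPQ hk hl h
    by_cases h4 : k * l = 4
    · have z : ∀ N : ℕ, (∀ π : ℕ, Odd (padicValNat π N) → π.Prime → π = 2) →
          nonQuartic 1 N = 0 := by
        intro N h
        rw [nonQuartic, Set.ncard_eq_zero (Set.finite_empty.subset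
          fun π hπ => hπ.2.1 (h π hπ.2.2.1 hπ.1))]
        exact Set.eq_empty_of_forall_notMem fun π hπ => hπ.2.1 (h π hπ.2.2.1 hπ.1)
      rw [h4]
      refine ⟨1, 0, 0, 1, 0, fun π _ _ _ => by simp, Or.inr ⟨rfl, rfl, dvd_rfl, by norm_num,
        by norm_num, fun π _ _ _ j _ => by simp, ?_, ?_⟩⟩
      · rw [z _ (by simp)]; simp
      · rw [z (4 + 4) fun π h hπ => (Nat.prime_dvd_prime_iff_eq hπ Nat.prime_two).1
          (hπ.dvd_of_dvd_pow (n := 3) (dvd_of_one_le_padicValNat h.pos))]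
        simp
    obtain ⟨k', rfl⟩ : ∃ k', k = 2 * k' := ⟨k / 2, by omega⟩
    obtain ⟨l', rfl⟩ : ∃ l', l = 2 * l' := ⟨l / 2, by omega⟩
    have e : 2 * k' * (2 * l') = 4 * (k' * l') := by ring
    rw [e] at h3 h4 ⊢
    have od : ∀ {u v m : ℕ}, Nat.Coprime u v → u ^ 2 + v ^ 2 = 2 * m → u % 2 = 1 ∧ v % 2 = 1 := by
      intro u v m h e
      have h1 : ¬ (u % 2 = 0 ∧ v % 2 = 0) := fun h' => by
        have := Nat.dvd_gcd (Nat.dvd_of_mod_eq_zero h'.1) (Nat.dvd_of_mod_eq_zero h'.2)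
        rw [h] at this; omega
      have h2 := sq_mod u
      have h3 := sq_mod v
      omega
    have o1 := od hqr (hk.trans (mul_assoc _ _ _))
    have o2 := od hps (hl.trans (mul_assoc _ _ _))
    obtain ⟨y', y, e1, e2⟩ : ∃ y' y : ℤ, y' + y = p ∧ y' - y = s :=
      ⟨((p : ℤ) + s) / 2, ((p : ℤ) - s) / 2, by omega, by omega⟩
    obtain ⟨x', x, e3, e4⟩ : ∃ x' x : ℤ, x' + x = q ∧ x' - x = r :=
      ⟨((q : ℤ) + r) / 2, ((q : ℤ) - r) / 2, by omega, by omega⟩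
    have hk' : (q : ℤ) ^ 2 + r ^ 2 = 2 * k' * (p * s) := by exact_mod_cast hk
    have hl' : (p : ℤ) ^ 2 + s ^ 2 = 2 * l' * (q * r) := by exact_mod_cast hl
    have c0 : IsCoprime ((q : ℤ) * r) (p * s) := by
      exact_mod_cast Nat.isCoprime_iff_coprime.2 hPQ.symm
    have c1 := Nat.isCoprime_iff_coprime.2 hqr
    have c2 := Nat.isCoprime_iff_coprime.2 hps
    rw [← e1, ← e2, ← e3, ← e4] at hk' hl' c0
    rw [← e3, ← e4] at c1
    rw [← e1, ← e2] at c2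
    obtain ⟨X, Y, z, w, t1, t2⟩ := even_main (k := k') (l := l') (by omega) (by omega) (by omega)
      (by omega) (by omega) (by omega) c0 c1 c2
      (mul_left_cancel₀ (two_ne_zero' ℤ) (by linear_combination hk'))
      (mul_left_cancel₀ (two_ne_zero' ℤ) (by linear_combination hl')) (by omega) (by omega)
      (by omega) (by omega)
    exact ⟨k', X, Y, z, w, t1, Or.inr ⟨h3.1, by omega, ⟨l', by ring⟩, t2⟩⟩
  have hk2 : k % 2 = 1 := by
    by_contra h'; rw [Nat.mul_mod, show k % 2 = 0 by omega] at hev; simp at hev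
  have hl2 : l % 2 = 1 := by
    by_contra h'; rw [Nat.mul_mod, show l % 2 = 0 by omega] at hev; simp at hev
  by_cases hQ : q * r % 2 = 1
  · have h8 := odd_case hqr hps hPQ hk hl hQ hk2 hl2
    have hP : p * s % 2 = 0 := by
      have h3 := Nat.odd_mul.1 (Nat.odd_iff.2 hQ)
      have h4 := Nat.odd_iff.1 h3.1
      have h5 := Nat.odd_iff.1 h3.2
      have h6 := sq_mod q
      have h7 := sq_mod r
      have := par (u := k) (v := p * s) (by omega)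
      omega
    rw [mul_comm k l] at h8 ⊢
    rcases par hP with h | h
    · obtain ⟨x, v, z, w, t1, t2⟩ := odd_nat hq hp hs hr hqr hps hPQ.symm hl hk h8 h
      exact ⟨2 * l, x, v, z, w, t1, Or.inl ⟨h8, by omega, ⟨k, by ring⟩, t2⟩⟩
    · obtain ⟨x, v, z, w, t1, t2⟩ := odd_nat hq hs hp hr hqr hps.symm (by rw [mul_comm s]; exact hPQ.symm)
        (by rw [add_comm, hl]) (by rw [hk, mul_comm s]) h8 h
      exact ⟨2 * l, x, v, z, w, t1, Or.inl ⟨h8, by omega, ⟨k, by ring⟩, t2⟩⟩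
  · have hP : p * s % 2 = 1 := by
      by_contra h'
      have := Nat.dvd_gcd (Nat.dvd_of_mod_eq_zero (show p * s % 2 = 0 by omega))
        (Nat.dvd_of_mod_eq_zero (show q * r % 2 = 0 by omega))
      rw [hPQ] at this; omega
    have h8 := odd_case hps hqr hPQ.symm hl hk hP hl2 hk2
    rw [mul_comm] at h8
    rcases par (show q * r % 2 = 0 by omega) with h | h
    · obtain ⟨x, v, z, w, t1, t2⟩ := odd_nat hp hq hr hs hps hqr hPQ hk hl h8 h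
      exact ⟨2 * k, x, v, z, w, t1, Or.inl ⟨h8, by omega, ⟨l, by ring⟩, t2⟩⟩
    · obtain ⟨x, v, z, w, t1, t2⟩ := odd_nat hp hr hq hs hps hqr.symm (by rw [mul_comm r]; exact hPQ)
        (by rw [add_comm, hk]) (by rw [hl, mul_comm r]) h8 h
      exact ⟨2 * k, x, v, z, w, t1, Or.inl ⟨h8, by omega, ⟨l, by ring⟩, t2⟩⟩

theorem result (n : ℕ) (a b c d : ℚ) (ha : 0 < a) (hb : 0 < b) (hc : 0 < c) (hd : 0 < d)
    (h1 : (n : ℚ) = (a + b) * (c + d)) (h2 : a * b * c * d = 1) :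
    ∃ (L : ℕ) (x y z w : ℤ),
      (∀ π : ℕ, π.Prime → π ≠ 2 → Odd (padicValNat π (n - 4)) ∨ Odd (padicValNat π (n + 4)) →
        IsSquare (L : ZMod π)) ∧
      ((n % 8 = 5 ∧ L % 2 = 0 ∧ L ∣ 2 * n ∧ (n : ℤ) - 4 = x ^ 2 + 16 * y ^ 2 ∧
          (n : ℤ) + 4 = z ^ 2 + 16 * w ^ 2 ∧
          (∀ p : ℕ, p.Prime → p ∣ n → ∃ j : ZMod p, j ^ 2 = -1 ∧
            IsSquare (2 * ((x + 4 * j * y) * (z + 4 * j * w)))) ∧
          (nonQuartic L (n - 4) : ℤ) % 2 = (w + ((n : ℤ) - 5) / 8) % 2 ∧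
          (nonQuartic L (n + 4) : ℤ) % 2 = (y + ((n : ℤ) - 5) / 8) % 2) ∨
        (n % 64 = 4 ∧ L % 8 = 1 ∧ 4 * L ∣ n ∧ (n : ℤ) - 4 = x ^ 2 + y ^ 2 ∧
          (n : ℤ) + 4 = 8 * (z ^ 2 + 16 * w ^ 2) ∧
          (∀ p : ℕ, p.Prime → p ≠ 2 → p ∣ n → ∃ j : ZMod p, j ^ 2 = -1 ∧
            IsSquare ((1 + j) * ((x + j * y) * (z + 4 * j * w)))) ∧
          ((nonQuartic L (n - 4) : ℤ) + padicValNat 2 (n - 4) * (((L : ℤ) - 1) / 8)) % 2
            = w % 2 ∧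
          ((nonQuartic L (n + 4) : ℤ) + ((L : ℤ) - 1) / 8) % 2 = w % 2)) := by
  obtain ⟨r, L, x, y, z, w, t, u⟩ := core n a b c d ha hb hc hd h1 h2
  have ex : ∀ p : ℕ, p.Prime → p ∣ n → ∃ j : ZMod p, j ^ 2 = -1 := fun p hp h => by
    have := Fact.mk hp
    obtain ⟨j, hj⟩ := ZMod.exists_sq_eq_neg_one_iff.2 (r p hp h)
    exact ⟨j, by rw [hj]; ring⟩
  refine ⟨L, x, y, z, w, t, ?_⟩
  rcases u with ⟨u1, u2, u3, u4, u5, u6, u7⟩ | ⟨u1, u2, u3, u4, u5, u6, u7⟩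
  · exact Or.inl ⟨u1, u2, u3, u4, u5, fun p hp h =>
      (ex p hp h).imp fun j hj => ⟨hj, u6 p hp h j hj⟩, u7⟩
  · exact Or.inr ⟨u1, u2, u3, u4, u5, fun p hp h2 h =>
      (ex p hp h).imp fun j hj => ⟨hj, u6 p hp h2 h j hj⟩, u7⟩

end Pool.Agent.Results.MP_110442_nt.Quartic
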