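import Mathlib
import Pool.Agent.MP_110442_nt.Cnt.Main

set_option autoImplicit false

namespace Pool.Agent.Results.MP_110442_nt.CountOdd

open Pool.Agent.MP_110442_nt.Cnt

theorem result : ∃ (C : ℝ) (X₀ : ℕ), ∀ X : ℕ, X₀ ≤ X →
    ({n : ℕ | n ≤ X ∧ Odd n ∧ ∃ a b c d : ℚ, 0 < a ∧ 0 < b ∧ 0 < c ∧ 0 < d ∧
        (n : ℚ) = (a + b) * (c + d) ∧ a * b * c * d = 1}.ncard : ℝ) ≤
      C * X * Real.log X ^ (Real.sqrt 2 - 3) * Real.log (Real.log X) ^ 42 := by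
  obtain ⟨C, X0, h⟩ := main (Real.sqrt_nonneg 2) (Real.mul_self_sqrt two_pos.le)
  refine ⟨C, X0, fun X hX => ?_⟩
  obtain ⟨h1, h2, -⟩ := h X hX
  rw [Real.rpow_def_of_pos (by linarith), Set.ncard_eq_toFinset_card _
    ((Set.finite_Iic X).subset fun n hn => hn.1)]
  refine h2 _ fun n hn => ?_
  rw [Set.Finite.mem_toFinset] at hn
  exact ⟨hn.1, Nat.odd_iff.1 hn.2.1, hn.2.2⟩

end Pool.Agent.Results.MP_110442_nt.CountOdd
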