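import Mathlib
import Pool.Agent.MP_110442_nt.Mk.Cnt

set_option autoImplicit false

namespace Pool.Agent.Results.MP_110442_nt.LowerCount

open Pool.Agent.MP_110442_nt.Mk

theorem result : ∃ C : ℝ, 0 < C ∧ ∃ X₀ : ℕ, ∀ X : ℕ, X₀ ≤ X →
    C * Real.log X ^ 2 / Real.log (Real.log X) ≤
      ({n : ℕ | n ≤ X ∧ ∃ a b c d : ℚ, 0 < a ∧ 0 < b ∧ 0 < c ∧ 0 < d ∧
        (n : ℚ) = (a + b) * (c + d) ∧ a * b * c * d = 1}.ncard : ℝ) := by
  have h := (Real.tendsto_log_atTop.comp tendsto_natCast_atTop_atTop).eventually_ge_atTop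
    ((18000 : ℝ) ^ 2)
  obtain ⟨X₀, h⟩ := Filter.eventually_atTop.1 h
  exact ⟨1 / 129600000, by norm_num, X₀, fun X hX => main (h X hX)⟩

end Pool.Agent.Results.MP_110442_nt.LowerCount
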